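import Mathlib

/-!
# Sets compressed by two polynomials

The numbers `cos (2 π a / 5 ^ (k + 1))`, `a` prime to `5`, form an orbit of the Chebyshev polynomial
`2 x ^ 2 - 1` and also an orbit of the Chebyshev polynomial `4 x ^ 3 - 3 x`, since `2` and `3` are
primitive roots modulo all powers of `5`.
-/

set_option autoImplicit false

open Polynomial

namespace Pool.Agent.Results.MP_29b953_an.ChebyshevOrbits

/-- `f` is a compressing function for the finite set `S` of real numbers: with `N` the number of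
elements of `S`, one has `S = {x₀, f x₀, …, f^(N-1) x₀}` for some `x₀` in `S`. -/
def Compresses (f : ℝ[X]) (S : Finset ℝ) : Prop :=
  ∃ x₀ ∈ S, (S : Set ℝ) = {y | ∃ i < S.card, y = (fun x => f.eval x)^[i] x₀}

/-- `S` is `K`-compressible: it has a compressing function of degree at most `K`. -/
def Compressible (K : ℕ) (S : Finset ℝ) : Prop :=
  ∃ f : ℝ[X], f.natDegree ≤ K ∧ Compresses f S

/-- At most one polynomial of degree between `2` and `K` compresses `S`. -/
def Unique (K : ℕ) (S : Finset ℝ) : Prop :=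
  ∀ f g : ℝ[X], 2 ≤ f.natDegree → f.natDegree ≤ K → Compresses f S →
    2 ≤ g.natDegree → g.natDegree ≤ K → Compresses g S → f = g

/-! ### Primitive roots modulo powers of five -/

lemma four_dvd {g : ℤ} (hg : g = 2 ∨ g = 3) {e : ℕ} (h : (5 : ℤ) ∣ g ^ e - 1) : 4 ∣ e := by
  have hdec : e = 4 * (e / 4) + e % 4 := (Nat.div_add_mod e 4).symm
  have hr : e % 4 < 4 := Nat.mod_lt _ (by norm_num)
  have h4 : (5 : ℤ) ∣ g ^ 4 - 1 := by rcases hg with rfl | rfl <;> norm_num
  have h5 : (5 : ℤ) ∣ (g ^ 4) ^ (e / 4) - 1 := by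
    have := sub_dvd_pow_sub_pow (g ^ 4) 1 (e / 4)
    rw [one_pow] at this
    exact h4.trans this
  have h6 : (5 : ℤ) ∣ g ^ (e % 4) - 1 := by
    have e1 : g ^ e = (g ^ 4) ^ (e / 4) * g ^ (e % 4) := by
      rw [← pow_mul, ← pow_add, ← hdec]
    have e2 : g ^ (e % 4) - 1 = (g ^ e - 1) - ((g ^ 4) ^ (e / 4) - 1) * g ^ (e % 4) := by
      rw [e1]; ring
    rw [e2]
    exact dvd_sub h (Dvd.dvd.mul_right h5 _)
  apply Nat.dvd_of_mod_eq_zero
  generalize e % 4 = r at hr h6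
  rcases hg with rfl | rfl <;> interval_cases r <;> first | rfl | (exfalso; revert h6; norm_num)

lemma key {g : ℤ} (hg : g = 2 ∨ g = 3) {k e : ℕ} (h : (5 : ℤ) ^ (k + 1) ∣ g ^ e - 1) :
    4 * 5 ^ k ∣ e := by
  have h5 : (5 : ℤ) ∣ g ^ e - 1 := (dvd_pow_self 5 (Nat.succ_ne_zero k)).trans h
  obtain ⟨q, rfl⟩ := four_dvd hg h5
  apply Nat.mul_dvd_mul_left
  have hp : Nat.Prime 5 := by norm_num
  have hodd : Odd 5 := by decide
  have h1 : ((5 : ℕ) : ℤ) ∣ g ^ 4 - 1 := by rcases hg with rfl | rfl <;> norm_num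
  have h2 : ¬ ((5 : ℕ) : ℤ) ∣ g ^ 4 := by rcases hg with rfl | rfl <;> norm_num
  have h3 := Int.emultiplicity_pow_sub_pow hp hodd h1 h2 q
  have h4 : emultiplicity ((5 : ℕ) : ℤ) (g ^ 4 - 1) = 1 := by
    have : emultiplicity ((5 : ℕ) : ℤ) (g ^ 4 - 1) = ((1 : ℕ) : ℕ∞) := by
      rw [emultiplicity_eq_coe]
      rcases hg with rfl | rfl <;> norm_num
    simpa using this
  rw [one_pow, ← pow_mul, h4] at h3
  have h6 : ((k + 1 : ℕ) : ℕ∞) ≤ emultiplicity ((5 : ℕ) : ℤ) (g ^ (4 * q) - 1) :=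
    le_emultiplicity_of_pow_dvd (by simpa using h)
  rw [h3] at h6
  have h7 : ((k : ℕ) : ℕ∞) ≤ emultiplicity 5 q := by
    rw [Nat.cast_add, Nat.cast_one, add_comm] at h6
    exact (ENat.add_le_add_iff_left (by simp)).mp h6
  exact pow_dvd_of_le_emultiplicity h7

lemma not_dvd {g : ℤ} (hg : g = 2 ∨ g = 3) : IsCoprime g (5 : ℤ) := by
  rcases hg with rfl | rfl
  · exact ⟨-2, 1, by norm_num⟩
  · exact ⟨2, -1, by norm_num⟩

lemma coprime_pow {g : ℤ} (hg : g = 2 ∨ g = 3) (i k : ℕ) :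
    IsCoprime (g ^ i) ((5 : ℤ) ^ (k + 1)) := (not_dvd hg).pow

/-- every integer prime to `5` is a power of `g` modulo `5 ^ (k + 1)` -/
lemma surj {g : ℤ} (hg : g = 2 ∨ g = 3) (k : ℕ) (a : ℤ) (ha : IsCoprime a 5) :
    ∃ i < 4 * 5 ^ k, (5 : ℤ) ^ (k + 1) ∣ a - g ^ i := by
  have hm : NeZero (5 ^ (k + 1)) := ⟨by positivity⟩
  have hunit : ∀ b : ℤ, IsCoprime b 5 → IsUnit (b : ZMod (5 ^ (k + 1))) := by
    intro b hb
    have h1 : IsCoprime b ((5 : ℤ) ^ (k + 1)) := hb.pow_right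
    obtain ⟨u, v, huv⟩ := h1
    have := congrArg (Int.cast : ℤ → ZMod (5 ^ (k + 1))) huv
    push_cast at this
    have h0 : (5 : ZMod (5 ^ (k + 1))) ^ (k + 1) = 0 := by
      have := ZMod.natCast_self (5 ^ (k + 1))
      push_cast at this
      exact this
    rw [h0, mul_zero, add_zero] at this
    exact IsUnit.of_mul_eq_one (u : ZMod (5 ^ (k + 1))) (by rw [mul_comm]; exact this)
  obtain ⟨ug, hug⟩ := hunit g (not_dvd hg)
  obtain ⟨ua, hua⟩ := hunit a ha
  have hinj : Function.Injective (fun i : Fin (4 * 5 ^ k) => ug ^ (i : ℕ)) := by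
    have hgen : ∀ i j : ℕ, i ≤ j → j < 4 * 5 ^ k → ug ^ i = ug ^ j → i = j := by
      intro i j hij hj h
      have h1 : ug ^ (j - i) = 1 := by
        have : ug ^ j = ug ^ i * ug ^ (j - i) := by rw [← pow_add]; congr 1; omega
        rw [this] at h
        exact (mul_eq_left.mp h.symm)
      have h2 : ((g ^ (j - i) - 1 : ℤ) : ZMod (5 ^ (k + 1))) = 0 := by
        push_cast
        rw [← hug, ← Units.val_pow_eq_pow_val, h1]; simp
      rw [ZMod.intCast_zmod_eq_zero_iff_dvd] at h2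
      have h3 := key hg (k := k) (e := j - i) (by push_cast at h2; exact h2)
      rcases Nat.eq_zero_or_pos (j - i) with h4 | h4
      · omega
      · have := Nat.le_of_dvd h4 h3; omega
    intro i j h
    rcases le_total (i : ℕ) j with hij | hij
    · exact Fin.ext (hgen i j hij j.isLt h)
    · exact (Fin.ext (hgen j i hij i.isLt h.symm)).symm
  have hcard : Fintype.card (Fin (4 * 5 ^ k)) = Fintype.card (ZMod (5 ^ (k + 1)))ˣ := by
    rw [ZMod.card_units_eq_totient, Fintype.card_fin, Nat.totient_prime_pow (by norm_num) (by omega)]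
    simp [mul_comm]
  obtain ⟨i, hi⟩ := ((Fintype.bijective_iff_injective_and_card _).mpr ⟨hinj, hcard⟩).2 ua
  refine ⟨i, i.isLt, ?_⟩
  have h1 : ((a - g ^ (i : ℕ) : ℤ) : ZMod (5 ^ (k + 1))) = 0 := by
    push_cast
    rw [← hug, ← Units.val_pow_eq_pow_val, ← hua]
    have : ug ^ (i : ℕ) = ua := hi
    rw [this, sub_self]
  rw [ZMod.intCast_zmod_eq_zero_iff_dvd] at h1
  push_cast at h1
  exact h1

lemma neg_one {g : ℤ} (hg : g = 2 ∨ g = 3) (k : ℕ) : (5 : ℤ) ^ (k + 1) ∣ g ^ (2 * 5 ^ k) + 1 := by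
  obtain ⟨i, hi, h⟩ := surj hg k (-1) (by exact ⟨-1, 0, by norm_num⟩)
  -- `g ^ i = -1`
  have h2 : (5 : ℤ) ^ (k + 1) ∣ g ^ (2 * i) - 1 := by
    have : g ^ (2 * i) - 1 = (-1 - g ^ i) * (1 - g ^ i) := by
      rw [two_mul, pow_add]; ring
    rw [this]; exact Dvd.dvd.mul_right h _
  have h3 := key hg h2
  have h4 : 2 * 5 ^ k ∣ i := by
    have : 2 * (2 * 5 ^ k) ∣ 2 * i := by
      rw [← mul_assoc]; exact h3
    exact Nat.dvd_of_mul_dvd_mul_left (by norm_num) this
  obtain ⟨q, hq⟩ := h4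
  have hpos : 0 < 5 ^ k := by positivity
  have hq2 : q < 2 := by
    by_contra hcon
    push Not at hcon
    have : 2 * 5 ^ k * 2 ≤ 2 * 5 ^ k * q := Nat.mul_le_mul_left _ hcon
    omega
  interval_cases q
  · exfalso
    rw [mul_zero] at hq
    rw [hq, pow_zero] at h
    have h5 : (5 : ℤ) ∣ -1 - 1 := (dvd_pow_self 5 (Nat.succ_ne_zero k)).trans h
    revert h5; norm_num
  · rw [mul_one] at hq
    rw [← hq]
    have : g ^ i + 1 = -(-1 - g ^ i) := by ring
    rw [this]; exact (dvd_neg).mpr h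

/-! ### Cosines -/

/-- `cos (2 π a / 5 ^ (k + 1))` -/
noncomputable def cc (k : ℕ) (a : ℤ) : ℝ := Real.cos (2 * Real.pi * a / 5 ^ (k + 1))

lemma cc_eq (k : ℕ) (a b : ℤ) :
    cc k a = cc k b ↔ (5 : ℤ) ^ (k + 1) ∣ a - b ∨ (5 : ℤ) ^ (k + 1) ∣ a + b := by
  have hpi := Real.pi_ne_zero
  have hm : ((5 : ℝ) ^ (k + 1)) ≠ 0 := by positivity
  unfold cc
  rw [Real.cos_eq_cos_iff]
  constructor
  · rintro ⟨j, h | h⟩
    · left
      refine ⟨-j, ?_⟩
      have : ((a - b : ℤ) : ℝ) = (((5 : ℤ) ^ (k + 1) * -j : ℤ) : ℝ) := by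
        push_cast
        field_simp at h
        linear_combination -h
      exact_mod_cast this
    · right
      refine ⟨j, ?_⟩
      have : ((a + b : ℤ) : ℝ) = (((5 : ℤ) ^ (k + 1) * j : ℤ) : ℝ) := by
        push_cast
        field_simp at h
        linear_combination h
      exact_mod_cast this
  · rintro (⟨j, h⟩ | ⟨j, h⟩)
    · refine ⟨-j, Or.inl ?_⟩
      have h' : (a : ℝ) - b = 5 ^ (k + 1) * j := by exact_mod_cast h
      push_cast
      field_simp
      linear_combination -h'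
    · refine ⟨j, Or.inr ?_⟩
      have h' : (a : ℝ) + b = 5 ^ (k + 1) * j := by exact_mod_cast h
      field_simp
      linear_combination h'

/-- the Chebyshev polynomials of degrees two and three -/
noncomputable def T2 : ℝ[X] := C 2 * X ^ 2 - 1

/-- the Chebyshev polynomial of degree three -/
noncomputable def T3 : ℝ[X] := C 4 * X ^ 3 - C 3 * X

lemma T2_cc (k : ℕ) (a : ℤ) : T2.eval (cc k a) = cc k (2 * a) := by
  simp only [T2, cc, eval_sub, eval_mul, eval_C, eval_pow, eval_X, eval_one]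
  rw [← Real.cos_two_mul]
  congr 1; push_cast; ring

lemma T3_cc (k : ℕ) (a : ℤ) : T3.eval (cc k a) = cc k (3 * a) := by
  simp only [T3, cc, eval_sub, eval_mul, eval_C, eval_pow, eval_X]
  rw [← Real.cos_three_mul]
  congr 1; push_cast; ring

lemma iter_cc {f : ℝ[X]} {g : ℤ} (k : ℕ) (hf : ∀ a, f.eval (cc k a) = cc k (g * a)) (i : ℕ) :
    (fun x => f.eval x)^[i] (cc k 1) = cc k (g ^ i) := by
  induction i with
  | zero => simp
  | succ i ih =>
    rw [Function.iterate_succ_apply', ih, hf, pow_succ, mul_comm]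

lemma cc_inj {g : ℤ} (hg : g = 2 ∨ g = 3) (k : ℕ) {i j : ℕ} (hi : i < 2 * 5 ^ k)
    (hj : j < 2 * 5 ^ k) (h : cc k (g ^ i) = cc k (g ^ j)) : i = j := by
  have main : ∀ i j : ℕ, i ≤ j → j < 2 * 5 ^ k → cc k (g ^ i) = cc k (g ^ j) → i = j := by
    intro i j hij hj h
    rw [cc_eq] at h
    have hpow : g ^ j = g ^ i * g ^ (j - i) := by rw [← pow_add]; congr 1; omega
    have h2 : (5 : ℤ) ^ (k + 1) ∣ g ^ (2 * (j - i)) - 1 := by
      have e1 : g ^ (2 * (j - i)) - 1 = (g ^ (j - i) - 1) * (g ^ (j - i) + 1) := by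
        rw [two_mul, pow_add]; ring
      rw [e1]
      rcases h with h | h
      · have : (5 : ℤ) ^ (k + 1) ∣ g ^ i * (1 - g ^ (j - i)) := by
          rw [mul_sub, mul_one, ← hpow]; exact h
        have h3 := (coprime_pow hg i k).symm.dvd_of_dvd_mul_left this
        have h4 : (5 : ℤ) ^ (k + 1) ∣ g ^ (j - i) - 1 := by
          rw [← neg_sub]; exact (dvd_neg).mpr h3
        exact Dvd.dvd.mul_right h4 _
      · have : (5 : ℤ) ^ (k + 1) ∣ g ^ i * (g ^ (j - i) + 1) := by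
          rw [mul_add, mul_one, ← hpow, add_comm (g ^ j)]; exact h
        have h3 := (coprime_pow hg i k).symm.dvd_of_dvd_mul_left this
        exact Dvd.dvd.mul_left h3 _
    have h3 := key hg h2
    have h4 : 2 * 5 ^ k ∣ (j - i) := by
      have : 2 * (2 * 5 ^ k) ∣ 2 * (j - i) := by
        rw [← mul_assoc]; exact h3
      exact Nat.dvd_of_mul_dvd_mul_left (by norm_num) this
    rcases Nat.eq_zero_or_pos (j - i) with h5 | h5
    · omega
    · have := Nat.le_of_dvd h5 h4; omega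
  rcases le_total i j with hij | hij
  · exact main i j hij hj h
  · exact (main j i hij hi h.symm).symm

/-- the orbit is the set of all `cos (2 π a / 5 ^ (k + 1))` with `a` prime to `5` -/
lemma orbit_eq {g : ℤ} (hg : g = 2 ∨ g = 3) (k : ℕ) :
    {y | ∃ i < 2 * 5 ^ k, y = cc k (g ^ i)} = {y | ∃ a : ℤ, IsCoprime a 5 ∧ y = cc k a} := by
  ext y
  constructor
  · rintro ⟨i, -, rfl⟩
    exact ⟨g ^ i, (not_dvd hg).pow_left, rfl⟩
  · rintro ⟨a, ha, rfl⟩
    obtain ⟨i, hi, h⟩ := surj hg k a ha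
    rcases Nat.lt_or_ge i (2 * 5 ^ k) with h1 | h1
    · exact ⟨i, h1, (cc_eq _ _ _).mpr (Or.inl h)⟩
    · refine ⟨i - 2 * 5 ^ k, by omega, (cc_eq _ _ _).mpr (Or.inr ?_)⟩
      have hpow : g ^ i = g ^ (2 * 5 ^ k) * g ^ (i - 2 * 5 ^ k) := by
        rw [← pow_add]; congr 1; omega
      have e : a + g ^ (i - 2 * 5 ^ k) = (a - g ^ i) +
          (g ^ (2 * 5 ^ k) + 1) * g ^ (i - 2 * 5 ^ k) := by
        rw [hpow]; ring
      rw [e]
      exact dvd_add h (Dvd.dvd.mul_right (neg_one hg k) _)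

/-- the set `{cos (2 π a / 5 ^ (k + 1)) : a prime to 5}` -/
noncomputable def SS (k : ℕ) : Finset ℝ := (Finset.range (2 * 5 ^ k)).image (fun i => cc k (2 ^ i))

lemma card_SS (k : ℕ) : (SS k).card = 2 * 5 ^ k := by
  rw [SS, Finset.card_image_of_injOn, Finset.card_range]
  intro i hi j hj h
  exact cc_inj (Or.inl rfl) k (by simpa using hi) (by simpa using hj) h

lemma coe_SS (k : ℕ) : (SS k : Set ℝ) = {y | ∃ a : ℤ, IsCoprime a 5 ∧ y = cc k a} := by
  rw [← orbit_eq (g := 2) (Or.inl rfl) k]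
  ext y
  simp [SS, eq_comm]

lemma compresses {f : ℝ[X]} {g : ℤ} (hg : g = 2 ∨ g = 3) (k : ℕ)
    (hf : ∀ a, f.eval (cc k a) = cc k (g * a)) : Compresses f (SS k) := by
  refine ⟨cc k 1, ?_, ?_⟩
  · have : cc k 1 ∈ (SS k : Set ℝ) := by
      rw [coe_SS]; exact ⟨1, isCoprime_one_left, rfl⟩
    exact_mod_cast this
  · rw [coe_SS, ← orbit_eq hg k, card_SS]
    ext y
    simp only [Set.mem_ofPred_eq, iter_cc k hf]

lemma natDegree_T2 : T2.natDegree = 2 := by
  unfold T2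
  compute_degree!

lemma natDegree_T3 : T3.natDegree = 3 := by
  unfold T3
  compute_degree!

/-- **For every `K ≥ 3` there are arbitrarily large finite sets of real numbers which are
compressed by two different polynomials of degrees between `2` and `K`**, namely by the Chebyshev
polynomials `2 x ^ 2 - 1` and `4 x ^ 3 - 3 x`. -/
theorem result : ∀ K : ℕ, 3 ≤ K → ∀ M : ℕ, ∃ N : ℕ, M ≤ N ∧ ∃ S : Finset ℝ, S.card = N ∧
    Compressible K S ∧ ¬ Unique K S ∧
    Compresses (C 2 * X ^ 2 - 1) S ∧ Compresses (C 4 * X ^ 3 - C 3 * X) S := by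
  intro K hK M
  have h2 : Compresses T2 (SS M) := compresses (g := 2) (Or.inl rfl) M (T2_cc M)
  have h3 : Compresses T3 (SS M) := compresses (g := 3) (Or.inr rfl) M (T3_cc M)
  refine ⟨2 * 5 ^ M, ?_, SS M, card_SS M, ⟨T2, ?_, h2⟩, ?_, h2, h3⟩
  · have : M < 5 ^ M := Nat.lt_pow_self (by norm_num)
    omega
  · rw [natDegree_T2]; omega
  · intro h
    have := h T2 T3 (by rw [natDegree_T2]) (by rw [natDegree_T2]; omega) h2
      (by rw [natDegree_T3]; omega) (by rw [natDegree_T3]; omega) h3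
    have h4 := congrArg natDegree this
    rw [natDegree_T2, natDegree_T3] at h4
    omega

end Pool.Agent.Results.MP_29b953_an.ChebyshevOrbits
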